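import Mathlib

set_option autoImplicit false
open scoped BigOperators
open Filter Topology

namespace Pool.Agent.W708.PA

/-- the weight `1/√(n+1)` -/
noncomputable def w (n : ℕ) : ℝ := 1 / √((n : ℝ) + 1)

lemma w_pos (n : ℕ) : 0 < w n := by unfold w; positivity

lemma w_le_one (n : ℕ) : w n ≤ 1 := by
  unfold w
  rw [div_le_one (by positivity)]
  exact Real.one_le_sqrt.2 (by linarith [(Nat.cast_nonneg n : (0:ℝ) ≤ n)])

lemma w_anti {m n : ℕ} (h : m ≤ n) : w n ≤ w m := by
  unfold w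
  apply one_div_le_one_div_of_le (by positivity)
  apply Real.sqrt_le_sqrt
  have : (m : ℝ) ≤ n := by exact_mod_cast h
  linarith

lemma w_sq (n : ℕ) : w n * w n = 1 / ((n : ℝ) + 1) := by
  unfold w
  rw [div_mul_div_comm, one_mul, Real.mul_self_sqrt (by positivity)]

/-- the key property of the weights -/
lemma w_key (K : ℕ) : (2 * (K : ℝ) + 1) * w K ≤ (2 * K + 2) * w (K + 1) := by
  have h1 := w_pos K
  have h2 := w_pos (K + 1)
  refine (pow_le_pow_iff_left₀ (by positivity) (by positivity) two_ne_zero).1 ?_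
  rw [mul_pow, mul_pow, pow_two (w K), pow_two (w (K + 1)), w_sq, w_sq]
  push_cast
  rw [mul_one_div, mul_one_div, div_le_div_iff₀ (by positivity) (by positivity)]
  have hK : (0 : ℝ) ≤ K := Nat.cast_nonneg K
  nlinarith [mul_nonneg hK hK]

variable {𝕜 : Type} [RCLike 𝕜]

/-- the basic expressions of the norm -/
noncomputable def V (A : Finset ℕ) (K M : ℕ) (h : ℕ → 𝕜) : ℝ :=
  3 * w K * ∑ n ∈ A, ‖h n‖ + ‖∑ n ∈ Finset.range M \ A, ((w (max K n) : ℝ) : 𝕜) * h n‖

lemma V_nonneg (A : Finset ℕ) (K M : ℕ) (h : ℕ → 𝕜) : 0 ≤ V A K M h := by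
  have := w_pos K
  unfold V; positivity

lemma V_add (A : Finset ℕ) (K M : ℕ) (h g : ℕ → 𝕜) :
    V A K M (h + g) ≤ V A K M h + V A K M g := by
  have := w_pos K
  unfold V
  have h1 : ∑ n ∈ A, ‖(h + g) n‖ ≤ ∑ n ∈ A, ‖h n‖ + ∑ n ∈ A, ‖g n‖ := by
    rw [← Finset.sum_add_distrib]
    gcongr with n _
    exact norm_add_le _ _
  have h2 : ∑ n ∈ Finset.range M \ A, ((w (max K n) : ℝ) : 𝕜) * (h + g) n =
      ∑ n ∈ Finset.range M \ A, ((w (max K n) : ℝ) : 𝕜) * h n +
      ∑ n ∈ Finset.range M \ A, ((w (max K n) : ℝ) : 𝕜) * g n := by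
    rw [← Finset.sum_add_distrib]
    refine Finset.sum_congr rfl fun n _ => ?_
    rw [Pi.add_apply, mul_add]
  rw [h2]
  have h3 := norm_add_le (∑ n ∈ Finset.range M \ A, ((w (max K n) : ℝ) : 𝕜) * h n)
    (∑ n ∈ Finset.range M \ A, ((w (max K n) : ℝ) : 𝕜) * g n)
  have h4 : 3 * w K * ∑ n ∈ A, ‖(h + g) n‖ ≤
      3 * w K * ∑ n ∈ A, ‖h n‖ + 3 * w K * ∑ n ∈ A, ‖g n‖ := by
    rw [← mul_add]; gcongr
  linarith

lemma V_smul (A : Finset ℕ) (K M : ℕ) (c : 𝕜) (h : ℕ → 𝕜) :
    V A K M (c • h) = ‖c‖ * V A K M h := by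
  unfold V
  have h1 : ∑ n ∈ A, ‖(c • h) n‖ = ‖c‖ * ∑ n ∈ A, ‖h n‖ := by
    rw [Finset.mul_sum]
    refine Finset.sum_congr rfl fun n _ => ?_
    rw [Pi.smul_apply, smul_eq_mul, norm_mul]
  have h2 : ∑ n ∈ Finset.range M \ A, ((w (max K n) : ℝ) : 𝕜) * (c • h) n =
      c * ∑ n ∈ Finset.range M \ A, ((w (max K n) : ℝ) : 𝕜) * h n := by
    rw [Finset.mul_sum]
    refine Finset.sum_congr rfl fun n _ => ?_
    rw [Pi.smul_apply, smul_eq_mul]; ring
  rw [h1, h2, norm_mul]
  ring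

lemma V_tendsto (A : Finset ℕ) (K M : ℕ) {u : ℕ → ℕ → 𝕜} {f : ℕ → 𝕜}
    (hu : ∀ x, Tendsto (fun n => u n x) atTop (𝓝 (f x))) :
    Tendsto (fun n => V A K M (u n)) atTop (𝓝 (V A K M f)) := by
  unfold V
  refine Tendsto.add (Tendsto.const_mul _ ?_) (Tendsto.norm ?_)
  · exact tendsto_finsetSum _ fun a _ => (hu a).norm
  · exact tendsto_finsetSum _ fun a _ => (hu a).const_mul _

/-- crude upper bound -/
lemma V_le_l1 (A : Finset ℕ) (K M : ℕ) (h : ℕ → 𝕜) (T : Finset ℕ) (hT : ∀ n ∉ T, h n = 0) :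
    V A K M h ≤ 4 * ∑ n ∈ T, ‖h n‖ := by
  have hS : ∀ B : Finset ℕ, ∑ n ∈ B, ‖h n‖ ≤ ∑ n ∈ T, ‖h n‖ := by
    intro B
    calc ∑ n ∈ B, ‖h n‖ = ∑ n ∈ B ∩ T, ‖h n‖ := by
          rw [← Finset.sum_subset Finset.inter_subset_left]
          intro n hn hn'
          rw [hT n (fun h => hn' (Finset.mem_inter.2 ⟨hn, h⟩)), norm_zero]
      _ ≤ _ := Finset.sum_le_sum_of_subset_of_nonneg Finset.inter_subset_right
          (fun _ _ _ => norm_nonneg _)
  unfold V
  have h0 : 0 ≤ ∑ n ∈ A, ‖h n‖ := Finset.sum_nonneg fun _ _ => norm_nonneg _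
  have h1 : 3 * w K * ∑ n ∈ A, ‖h n‖ ≤ 3 * ∑ n ∈ T, ‖h n‖ := by
    have := w_le_one K
    have h2 := hS A
    calc 3 * w K * ∑ n ∈ A, ‖h n‖ ≤ 3 * 1 * ∑ n ∈ A, ‖h n‖ := by gcongr
      _ ≤ 3 * ∑ n ∈ T, ‖h n‖ := by linarith
  have h2 : ‖∑ n ∈ Finset.range M \ A, ((w (max K n) : ℝ) : 𝕜) * h n‖ ≤ ∑ n ∈ T, ‖h n‖ := by
    refine (norm_sum_le _ _).trans (le_trans ?_ (hS (Finset.range M \ A)))
    gcongr with n _
    rw [norm_mul, RCLike.norm_ofReal, abs_of_pos (w_pos _)]
    calc w (max K n) * ‖h n‖ ≤ 1 * ‖h n‖ := by gcongr; exact w_le_one _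
      _ = _ := one_mul _
  linarith

/-- Adding an element where `h` is maximal to the set `A` does not decrease the expression. -/
lemma step (h : ℕ → 𝕜) (m : ℝ) (hm : ∀ n, ‖h n‖ ≤ m) (A : Finset ℕ) (K M : ℕ) (hA : A.card ≤ K)
    (p : ℕ) (hp : ‖h p‖ = m) (hpA : p ∉ A) :
    ∃ K', (insert p A).card ≤ K' ∧ V A K M h ≤ V (insert p A) K' M h := by
  have hm0 : 0 ≤ m := hp ▸ norm_nonneg _
  have hcard : (insert p A).card = A.card + 1 := Finset.card_insert_of_notMem hpA
  have hsub : Finset.range M \ insert p A = (Finset.range M \ A).erase p := by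
    ext n; simp only [Finset.mem_sdiff, Finset.mem_insert, Finset.mem_erase, Finset.mem_range]
    tauto
  -- removing the element from the conditional part
  have hrem : ‖∑ n ∈ Finset.range M \ A, ((w (max K n) : ℝ) : 𝕜) * h n‖ ≤
      ‖∑ n ∈ Finset.range M \ insert p A, ((w (max K n) : ℝ) : 𝕜) * h n‖ + w K * m := by
    have hwm : 0 ≤ w K * m := mul_nonneg (w_pos K).le hm0
    rw [hsub]
    by_cases hpM : p ∈ Finset.range M \ A
    · rw [← Finset.add_sum_erase _ _ hpM]
      refine (norm_add_le _ _).trans ?_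
      rw [add_comm]
      gcongr
      rw [norm_mul, RCLike.norm_ofReal, abs_of_pos (w_pos _), hp]
      gcongr
      exact w_anti (le_max_left _ _)
    · rw [Finset.erase_eq_of_notMem hpM]
      linarith
  rcases Nat.lt_or_ge A.card K with hlt | hge
  · refine ⟨K, by omega, ?_⟩
    unfold V
    rw [Finset.sum_insert hpA, hp]
    have := w_pos K
    have h0 : 0 ≤ w K * m := mul_nonneg (w_pos K).le hm0
    nlinarith
  · have hK : A.card = K := le_antisymm hA hge
    refine ⟨K + 1, by omega, ?_⟩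
    unfold V
    rw [Finset.sum_insert hpA, hp]
    set S := ∑ n ∈ A, ‖h n‖ with hS
    have hS0 : 0 ≤ S := Finset.sum_nonneg fun _ _ => norm_nonneg _
    have hSK : S ≤ K * m := by
      calc S ≤ ∑ n ∈ A, m := Finset.sum_le_sum fun n _ => hm n
        _ = K * m := by rw [Finset.sum_const, hK, nsmul_eq_mul]
    have hw := w_key K
    have hw1 := w_pos K
    have hw2 := w_pos (K + 1)
    have hw3 := w_anti (Nat.le_succ K)
    -- the change of the cap
    have hcap : ‖∑ n ∈ Finset.range M \ insert p A, ((w (max K n) : ℝ) : 𝕜) * h n‖ ≤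
        ‖∑ n ∈ Finset.range M \ insert p A, ((w (max (K + 1) n) : ℝ) : 𝕜) * h n‖ +
          (K + 1) * (w K - w (K + 1)) * m := by
      have e1 : ∑ n ∈ Finset.range M \ insert p A, ((w (max K n) : ℝ) : 𝕜) * h n =
          ∑ n ∈ Finset.range M \ insert p A, ((w (max (K + 1) n) : ℝ) : 𝕜) * h n +
          ∑ n ∈ Finset.range M \ insert p A,
            ((w (max K n) - w (max (K + 1) n) : ℝ) : 𝕜) * h n := by
        rw [← Finset.sum_add_distrib]
        refine Finset.sum_congr rfl fun n _ => ?_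
        push_cast; ring
      rw [e1]
      refine (norm_add_le _ _).trans ?_
      gcongr
      refine (norm_sum_le _ _).trans ?_
      have e2 : ∀ n, ‖((w (max K n) - w (max (K + 1) n) : ℝ) : 𝕜) * h n‖ ≤
          if n ∈ Finset.range (K + 1) then (w K - w (K + 1)) * m else 0 := by
        intro n
        rw [norm_mul, RCLike.norm_ofReal]
        split_ifs with hn
        · rw [Finset.mem_range] at hn
          rw [max_eq_left (by omega : n ≤ K), max_eq_left (by omega : n ≤ K + 1),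
            abs_of_nonneg (by linarith)]
          exact mul_le_mul_of_nonneg_left (hm n) (by linarith)
        · rw [Finset.mem_range] at hn
          rw [max_eq_right (by omega : K ≤ n), max_eq_right (by omega : K + 1 ≤ n), sub_self,
            abs_zero, zero_mul]
      calc ∑ n ∈ Finset.range M \ insert p A, ‖((w (max K n) - w (max (K + 1) n) : ℝ) : 𝕜) * h n‖
          ≤ ∑ n ∈ Finset.range M \ insert p A,
            (if n ∈ Finset.range (K + 1) then (w K - w (K + 1)) * m else 0) :=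
            Finset.sum_le_sum fun n _ => e2 n
        _ = ∑ n ∈ (Finset.range M \ insert p A) ∩ Finset.range (K + 1), (w K - w (K + 1)) * m := by
            rw [Finset.sum_ite_mem]
        _ ≤ ∑ n ∈ Finset.range (K + 1), (w K - w (K + 1)) * m := by
            refine Finset.sum_le_sum_of_subset_of_nonneg Finset.inter_subset_right ?_
            intro _ _ _
            exact mul_nonneg (by linarith) hm0
        _ = _ := by
            rw [Finset.sum_const, Finset.card_range, nsmul_eq_mul]; push_cast; ring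
    -- now the arithmetic
    have hfin : 3 * w K * S + w K * m + (K + 1) * (w K - w (K + 1)) * m ≤
        3 * w (K + 1) * (m + S) := by
      have h1 : (w K - w (K + 1)) * S ≤ (w K - w (K + 1)) * (K * m) :=
        mul_le_mul_of_nonneg_left hSK (by linarith)
      have h2 : (2 * (K : ℝ) + 1) * w K * m ≤ (2 * K + 2) * w (K + 1) * m :=
        mul_le_mul_of_nonneg_right hw hm0
      nlinarith
    linarith

/-- We may assume that `A` contains a given set on which `h` is maximal. -/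
lemma enlarge (h : ℕ → 𝕜) (m : ℝ) (hm : ∀ n, ‖h n‖ ≤ m) (T : Finset ℕ) (hT : ∀ n ∈ T, ‖h n‖ = m)
    (M : ℕ) : ∀ (A : Finset ℕ) (K : ℕ), A.card ≤ K →
    ∃ (A' : Finset ℕ) (K' : ℕ), A'.card ≤ K' ∧ T ⊆ A' ∧ V A K M h ≤ V A' K' M h := by
  induction T using Finset.induction_on with
  | empty => intro A K hA; exact ⟨A, K, hA, Finset.empty_subset _, le_rfl⟩
  | insert p T hpT ih =>
    intro A K hA
    obtain ⟨A1, K1, h1, h2, h3⟩ := ih (fun n hn => hT n (Finset.mem_insert_of_mem hn)) A K hA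
    by_cases hp : p ∈ A1
    · exact ⟨A1, K1, h1, Finset.insert_subset hp h2, h3⟩
    · obtain ⟨K2, h4, h5⟩ := step h m hm A1 K1 M h1 p (hT p (Finset.mem_insert_self _ _)) hp
      exact ⟨insert p A1, K2, h4, Finset.insert_subset_insert p h2, h3.trans h5⟩

/-- the vector `y + 1_{ε T}` for `y` vanishing on `T` -/
def put (y : ℕ → 𝕜) (T : Finset ℕ) (ε : ℕ → 𝕜) : ℕ → 𝕜 := fun n => if n ∈ T then ε n else y n

/-- The core of Property (A). -/
lemma transfer (y : ℕ → 𝕜) (hy : ∀ n, ‖y n‖ ≤ 1) (T U : Finset ℕ) (hTU : T.card = U.card)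
    (hd : Disjoint T U) (h0 : ∀ n ∈ T ∪ U, y n = 0) (ε η : ℕ → 𝕜) (hε : ∀ n, ‖ε n‖ = 1)
    (hη : ∀ n, ‖η n‖ = 1) (A : Finset ℕ) (K M : ℕ) (hA : A.card ≤ K) :
    ∃ (B : Finset ℕ) (L : ℕ), B.card ≤ L ∧ V A K M (put y T ε) ≤ V B L M (put y U η) := by
  obtain ⟨A', K', h1, h2, h3⟩ := enlarge (put y T ε) 1 (fun n => by
    unfold put; split_ifs
    · exact (hε n).le
    · exact hy n) T (fun n hn => by unfold put; rw [if_pos hn]; exact hε n) M A K hA
  have hdis : ∀ n, n ∈ T → n ∉ U := fun n h1 h2 => Finset.disjoint_left.1 hd h1 h2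
  set R := A' \ (T ∪ U) with hR
  have hRU : Disjoint R U := by
    rw [Finset.disjoint_left]
    intro n hn
    rw [hR, Finset.mem_sdiff, Finset.mem_union] at hn
    tauto
  have hRT : Disjoint R T := by
    rw [Finset.disjoint_left]
    intro n hn
    rw [hR, Finset.mem_sdiff, Finset.mem_union] at hn
    tauto
  refine ⟨R ∪ U, K', ?_, h3.trans (le_of_eq ?_)⟩
  · rw [Finset.card_union_of_disjoint hRU, ← hTU, ← Finset.card_union_of_disjoint hRT]
    refine le_trans (Finset.card_le_card ?_) h1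
    intro n hn
    rcases Finset.mem_union.1 hn with h | h
    · exact (Finset.mem_sdiff.1 h).1
    · exact h2 h
  · unfold V
    have s1 : ∑ n ∈ A', ‖put y T ε n‖ = ∑ n ∈ R, ‖y n‖ + T.card := by
      have hsub : R ∪ T ⊆ A' := by
        intro n hn
        rcases Finset.mem_union.1 hn with h | h
        · exact (Finset.mem_sdiff.1 h).1
        · exact h2 h
      rw [← Finset.sum_subset hsub, Finset.sum_union hRT]
      · congr 1
        · refine Finset.sum_congr rfl fun n hn => ?_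
          unfold put
          rw [if_neg (Finset.disjoint_left.1 hRT hn)]
        · rw [Finset.card_eq_sum_ones, Nat.cast_sum]
          refine Finset.sum_congr rfl fun n hn => ?_
          unfold put
          rw [if_pos hn, hε]; simp
      · intro n hn hn'
        have hnT : n ∉ T := fun h => hn' (Finset.mem_union_right _ h)
        have hnU : n ∈ U := by
          by_contra hnU
          apply hn'
          apply Finset.mem_union_left
          rw [hR, Finset.mem_sdiff, Finset.mem_union]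
          tauto
        unfold put
        rw [if_neg hnT, h0 n (Finset.mem_union_right _ hnU), norm_zero]
    have s2 : ∑ n ∈ R ∪ U, ‖put y U η n‖ = ∑ n ∈ R, ‖y n‖ + T.card := by
      rw [Finset.sum_union hRU, hTU]
      congr 1
      · refine Finset.sum_congr rfl fun n hn => ?_
        unfold put
        rw [if_neg (Finset.disjoint_left.1 hRU hn)]
      · rw [Finset.card_eq_sum_ones, Nat.cast_sum]
        refine Finset.sum_congr rfl fun n hn => ?_
        unfold put
        rw [if_pos hn, hη]; simp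
    have t1 : ∑ n ∈ Finset.range M \ A', ((w (max K' n) : ℝ) : 𝕜) * put y T ε n =
        ∑ n ∈ Finset.range M \ R, ((w (max K' n) : ℝ) : 𝕜) * y n := by
      rw [← Finset.sum_subset (s₁ := Finset.range M \ A') (s₂ := Finset.range M \ R)]
      · refine Finset.sum_congr rfl fun n hn => ?_
        unfold put
        rw [if_neg (fun h => (Finset.mem_sdiff.1 hn).2 (h2 h))]
      · exact Finset.sdiff_subset_sdiff le_rfl Finset.sdiff_subset
      · intro n hn hn'
        rw [Finset.mem_sdiff] at hn hn'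
        have : n ∈ T ∪ U := by
          by_contra hcon
          apply hn.2
          rw [hR, Finset.mem_sdiff]
          refine ⟨?_, hcon⟩
          by_contra h; exact hn' ⟨hn.1, h⟩
        rw [h0 n this, mul_zero]
    have t2 : ∑ n ∈ Finset.range M \ (R ∪ U), ((w (max K' n) : ℝ) : 𝕜) * put y U η n =
        ∑ n ∈ Finset.range M \ R, ((w (max K' n) : ℝ) : 𝕜) * y n := by
      rw [← Finset.sum_subset (s₁ := Finset.range M \ (R ∪ U)) (s₂ := Finset.range M \ R)]
      · refine Finset.sum_congr rfl fun n hn => ?_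
        unfold put
        rw [if_neg (fun h => (Finset.mem_sdiff.1 hn).2 (Finset.mem_union_right _ h))]
      · exact Finset.sdiff_subset_sdiff le_rfl Finset.subset_union_left
      · intro n hn hn'
        rw [Finset.mem_sdiff] at hn hn'
        have : n ∈ T ∪ U := by
          by_contra hcon
          apply hn'
          refine ⟨hn.1, ?_⟩
          intro h
          rcases Finset.mem_union.1 h with h | h
          · exact hn.2 h
          · exact hcon (Finset.mem_union_right _ h)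
        rw [h0 n this, mul_zero]
    rw [s1, s2, t1, t2]

/-! ### The space -/

/-- index set of the expressions -/
abbrev J := {t : Finset ℕ × ℕ × ℕ // t.1.card ≤ t.2.1}

noncomputable def VV (t : J) (h : ℕ → 𝕜) : ℝ := V t.1.1 t.1.2.1 t.1.2.2 h

variable (𝕜) in
/-- the space: the closure of the finitely supported sequences -/
def Sp : Submodule 𝕜 (ℕ → 𝕜) where
  carrier := {h | ∀ δ : ℝ, 0 < δ → ∃ (N : ℕ) (g : ℕ → 𝕜), (∀ n, N ≤ n → g n = 0) ∧
    ∀ t : J, VV t (h - g) ≤ δ}
  add_mem' := by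
    intro h g hh hg δ hδ
    obtain ⟨N, h', h1, h2⟩ := hh (δ / 2) (by positivity)
    obtain ⟨N', g', h3, h4⟩ := hg (δ / 2) (by positivity)
    refine ⟨max N N', h' + g', fun n hn => ?_, fun t => ?_⟩
    · rw [Pi.add_apply, h1 n (le_trans (le_max_left _ _) hn), h3 n (le_trans (le_max_right _ _) hn),
        add_zero]
    · have e : h + g - (h' + g') = (h - h') + (g - g') := by abel
      rw [e]
      refine (V_add _ _ _ _ _).trans ?_
      have := h2 t
      have := h4 t
      unfold VV at *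
      linarith
  zero_mem' := by
    intro δ hδ
    refine ⟨0, 0, fun n _ => rfl, fun t => ?_⟩
    have := V_smul t.1.1 t.1.2.1 t.1.2.2 (0 : 𝕜) (0 : ℕ → 𝕜)
    rw [zero_smul, norm_zero, zero_mul] at this
    unfold VV
    rw [sub_zero, this]
    exact hδ.le
  smul_mem' := by
    intro c h hh δ hδ
    obtain ⟨N, g, h1, h2⟩ := hh (δ / (‖c‖ + 1)) (by positivity)
    refine ⟨N, c • g, fun n hn => ?_, fun t => ?_⟩
    · rw [Pi.smul_apply, h1 n hn, smul_zero]
    · rw [← smul_sub]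
      unfold VV at *
      rw [V_smul]
      calc ‖c‖ * V t.1.1 t.1.2.1 t.1.2.2 (h - g) ≤ (‖c‖ + 1) * (δ / (‖c‖ + 1)) := by
            apply mul_le_mul _ (h2 t) (V_nonneg _ _ _ _) (by positivity)
            linarith
        _ = δ := by field_simp

/-- finitely supported sequences are in the space -/
lemma fin_mem (g : ℕ → 𝕜) (N : ℕ) (hg : ∀ n, N ≤ n → g n = 0) : g ∈ Sp 𝕜 := by
  intro δ hδ
  refine ⟨N, g, hg, fun t => ?_⟩
  rw [sub_self]
  have := V_smul t.1.1 t.1.2.1 t.1.2.2 (0 : 𝕜) (0 : ℕ → 𝕜)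
  rw [zero_smul, norm_zero, zero_mul] at this
  unfold VV
  rw [this]
  exact hδ.le

lemma bdd (h : Sp 𝕜) : BddAbove (Set.range fun t : J => VV t h.1) := by
  obtain ⟨N, g, h1, h2⟩ := h.2 1 one_pos
  refine ⟨1 + 4 * ∑ n ∈ Finset.range N, ‖g n‖, ?_⟩
  rintro _ ⟨t, rfl⟩
  have e : h.1 = (h.1 - g) + g := by abel
  have h3 := V_le_l1 t.1.1 t.1.2.1 t.1.2.2 g (Finset.range N)
    (fun n hn => h1 n (by simpa using hn))
  calc VV t h.1 = VV t ((h.1 - g) + g) := by rw [← e]
    _ ≤ VV t (h.1 - g) + VV t g := V_add _ _ _ _ _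
    _ ≤ _ := add_le_add (h2 t) h3

/-- the norm -/
noncomputable def q (h : Sp 𝕜) : ℝ := ⨆ t : J, VV t h.1

lemma VV_le_q (h : Sp 𝕜) (t : J) : VV t h.1 ≤ q h := le_ciSup (bdd h) t

lemma V_le_q (h : Sp 𝕜) (A : Finset ℕ) (K M : ℕ) (hA : A.card ≤ K) : V A K M h.1 ≤ q h :=
  VV_le_q h ⟨(A, K, M), hA⟩

instance : Nonempty J := ⟨⟨(∅, 0, 0), by simp⟩⟩

lemma q_le {h : Sp 𝕜} {r : ℝ} (H : ∀ (A : Finset ℕ) (K M : ℕ), A.card ≤ K → V A K M h.1 ≤ r) :
    q h ≤ r := ciSup_le fun t => H t.1.1 t.1.2.1 t.1.2.2 t.2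

lemma q_nonneg (h : Sp 𝕜) : 0 ≤ q h := (V_nonneg ∅ 0 0 h.1).trans (V_le_q h ∅ 0 0 (by simp))

lemma q_smul (c : 𝕜) (h : Sp 𝕜) : q (c • h) = ‖c‖ * q h := by
  unfold q
  rw [Real.mul_iSup_of_nonneg (norm_nonneg c)]
  congr 1
  ext t
  exact V_smul _ _ _ c h.1

lemma q_add (h g : Sp 𝕜) : q (h + g) ≤ q h + q g :=
  q_le fun A K M hA => (V_add A K M h.1 g.1).trans (add_le_add (V_le_q h A K M hA) (V_le_q g A K M hA))

lemma norm_le_q (h : Sp 𝕜) (n : ℕ) : ‖h.1 n‖ ≤ q h := by
  refine le_trans ?_ (V_le_q h {n} 1 0 (by simp))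
  unfold V
  have h1 : (1 : ℝ) ≤ 3 * w 1 := by
    have h2 : (w 1) * (w 1) = 1 / 2 := by rw [w_sq]; norm_num
    have h3 := w_pos 1
    nlinarith
  simp only [Finset.sum_singleton, Finset.range_zero, Finset.empty_sdiff, Finset.sum_empty,
    norm_zero, add_zero]
  nlinarith [norm_nonneg (h.1 n)]

lemma q_eq_zero_iff (h : Sp 𝕜) : q h = 0 ↔ h = 0 := by
  constructor
  · intro hq
    apply Subtype.ext
    funext n
    have := norm_le_q h n
    rw [hq] at this
    simpa using norm_le_zero_iff.1 this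
  · rintro rfl
    have := q_smul (0 : 𝕜) (0 : Sp 𝕜)
    rwa [zero_smul, norm_zero, zero_mul] at this

variable (𝕜) in
/-- the Banach space, as a type of its own -/
def E : Type := Sp 𝕜

noncomputable instance : AddCommGroup (E 𝕜) := inferInstanceAs (AddCommGroup (Sp 𝕜))
noncomputable instance : Module 𝕜 (E 𝕜) := inferInstanceAs (Module 𝕜 (Sp 𝕜))
noncomputable instance : Norm (E 𝕜) := ⟨fun h => q (show Sp 𝕜 from h)⟩

lemma core : NormedSpace.Core 𝕜 (E 𝕜) where
  norm_nonneg := fun x => q_nonneg (show Sp 𝕜 from x)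
  norm_smul := fun c x => q_smul c (show Sp 𝕜 from x)
  norm_triangle := fun x y => q_add (show Sp 𝕜 from x) (show Sp 𝕜 from y)
  norm_eq_zero_iff := fun x => q_eq_zero_iff (show Sp 𝕜 from x)

noncomputable instance : NormedAddCommGroup (E 𝕜) := NormedAddCommGroup.ofCore core
noncomputable instance : NormedSpace 𝕜 (E 𝕜) := NormedSpace.ofCore core

/-- elements of the space -/
def mk (g : ℕ → 𝕜) (hg : g ∈ Sp 𝕜) : E 𝕜 := (⟨g, hg⟩ : Sp 𝕜)

/-- the sequence of coordinates -/
def seq (h : E 𝕜) : ℕ → 𝕜 := (show Sp 𝕜 from h).1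

@[simp] lemma seq_add (h g : E 𝕜) : seq (h + g) = seq h + seq g := rfl
@[simp] lemma seq_sub (h g : E 𝕜) : seq (h - g) = seq h - seq g := rfl
@[simp] lemma seq_smul (c : 𝕜) (h : E 𝕜) : seq (c • h) = c • seq h := rfl
@[simp] lemma seq_zero : seq (0 : E 𝕜) = 0 := rfl

lemma norm_def (h : E 𝕜) : ‖h‖ = q (show Sp 𝕜 from h) := rfl

lemma seq_inj {h g : E 𝕜} (e : ∀ n, seq h n = seq g n) : h = g := Subtype.ext (funext e)

lemma V_le (h : E 𝕜) (A : Finset ℕ) (K M : ℕ) (hA : A.card ≤ K) : V A K M (seq h) ≤ ‖h‖ :=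
  V_le_q _ A K M hA

lemma norm_le {h : E 𝕜} {r : ℝ}
    (H : ∀ (A : Finset ℕ) (K M : ℕ), A.card ≤ K → V A K M (seq h) ≤ r) : ‖h‖ ≤ r :=
  q_le H

lemma seq_le (h : E 𝕜) (n : ℕ) : ‖seq h n‖ ≤ ‖h‖ := norm_le_q _ n

lemma approx (h : E 𝕜) (δ : ℝ) (hδ : 0 < δ) : ∃ (N : ℕ) (g : E 𝕜), (∀ n, N ≤ n → seq g n = 0) ∧
    ‖h - g‖ ≤ δ := by
  obtain ⟨N, g, h1, h2⟩ := (show Sp 𝕜 from h).2 δ hδ
  exact ⟨N, (⟨g, fin_mem g N h1⟩ : Sp 𝕜), h1, norm_le fun A K M hA => h2 ⟨(A, K, M), hA⟩⟩

instance : CompleteSpace (E 𝕜) := by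
  apply Metric.complete_of_cauchySeq_tendsto
  intro u hu
  have hc : ∀ n : ℕ, CauchySeq fun j => seq (u j) n := by
    intro n
    rw [Metric.cauchySeq_iff] at hu ⊢
    intro δ hδ
    obtain ⟨N, hN⟩ := hu δ hδ
    refine ⟨N, fun i hi j hj => ?_⟩
    have h1 := hN i hi j hj
    rw [dist_eq_norm] at h1 ⊢
    exact (seq_le (u i - u j) n).trans_lt h1
  choose f hf using fun n => cauchySeq_tendsto_of_complete (hc n)
  have key : ∀ δ : ℝ, 0 < δ → ∃ N : ℕ, ∀ j ≥ N, ∀ (A : Finset ℕ) (K M : ℕ), A.card ≤ K →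
      V A K M (seq (u j) - f) ≤ δ := by
    intro δ hδ
    rw [Metric.cauchySeq_iff] at hu
    obtain ⟨N, hN⟩ := hu δ hδ
    refine ⟨N, fun j hj A K M hA => ?_⟩
    have h1 : Tendsto (fun i => V A K M (seq (u j) - seq (u i))) atTop
        (𝓝 (V A K M (seq (u j) - f))) := by
      apply V_tendsto
      intro n
      simpa using (hf n).const_sub (seq (u j) n)
    refine le_of_tendsto h1 ?_
    filter_upwards [eventually_ge_atTop N] with i hi
    have h2 := hN j hj i hi
    rw [dist_eq_norm] at h2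
    exact (V_le (u j - u i) A K M hA).trans h2.le
  have hfX : f ∈ Sp 𝕜 := by
    intro δ hδ
    obtain ⟨N, hN⟩ := key (δ / 2) (by positivity)
    obtain ⟨N', g, h1, h2⟩ := approx (u N) (δ / 2) (by positivity)
    refine ⟨N', seq g, h1, fun t => ?_⟩
    have e : f - seq g = (-1 : 𝕜) • (seq (u N) - f) + seq (u N - g) := by
      rw [seq_sub]; simp
    unfold VV
    rw [e]
    refine (V_add _ _ _ _ _).trans ?_
    rw [V_smul]
    have h3 := hN N le_rfl t.1.1 t.1.2.1 t.1.2.2 t.2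
    have h4 := (V_le (u N - g) t.1.1 t.1.2.1 t.1.2.2 t.2).trans h2
    have h5 : ‖(-1 : 𝕜)‖ = 1 := by simp
    rw [h5, one_mul]
    linarith
  refine ⟨mk f hfX, ?_⟩
  rw [Metric.tendsto_atTop]
  intro δ hδ
  obtain ⟨N, hN⟩ := key (δ / 2) (by positivity)
  refine ⟨N, fun j hj => ?_⟩
  rw [dist_eq_norm]
  have h1 : ‖u j - mk f hfX‖ ≤ δ / 2 := norm_le (hN j hj)
  exact h1.trans_lt (by linarith)

/-- the unit vectors -/
noncomputable def e (n : ℕ) : E 𝕜 := (⟨Pi.single n 1, fin_mem _ (n + 1) (fun k hk =>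
  Pi.single_eq_of_ne (by omega) _)⟩ : Sp 𝕜)

lemma seq_e (n k : ℕ) : seq (e n : E 𝕜) k = if k = n then 1 else 0 := by
  change (Pi.single n (1 : 𝕜) : ℕ → 𝕜) k = _
  rw [Pi.single_apply]

/-- the coordinate functionals -/
noncomputable def f (n : ℕ) : E 𝕜 →L[𝕜] 𝕜 :=
  LinearMap.mkContinuous
    { toFun := fun h => seq h n
      map_add' := fun _ _ => rfl
      map_smul' := fun _ _ => rfl } 1 (fun h => by rw [one_mul]; exact seq_le h n)

@[simp] lemma f_apply (n : ℕ) (h : E 𝕜) : f n h = seq h n := rfl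

lemma norm_f (n : ℕ) : ‖(f n : E 𝕜 →L[𝕜] 𝕜)‖ ≤ 1 :=
  ContinuousLinearMap.opNorm_le_bound _ zero_le_one (fun h => by rw [one_mul]; exact seq_le h n)

lemma norm_e (n : ℕ) : ‖(e n : E 𝕜)‖ ≤ 4 := by
  apply norm_le
  intro A K M hA
  refine (V_le_l1 A K M _ {n} ?_).trans ?_
  · intro k hk
    rw [seq_e, if_neg (by simpa using hk)]
  · rw [Finset.sum_singleton, seq_e, if_pos rfl, norm_one, mul_one]

lemma seq_sum (B : Finset ℕ) (c : ℕ → 𝕜) (k : ℕ) :
    seq (∑ n ∈ B, c n • (e n : E 𝕜)) k = if k ∈ B then c k else 0 := by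
  have : seq (∑ n ∈ B, c n • (e n : E 𝕜)) k = ∑ n ∈ B, seq (c n • (e n : E 𝕜)) k := by
    have := map_sum (f k) (fun n => c n • (e n : E 𝕜)) B
    simpa only [f_apply] using this
  rw [this]
  simp only [seq_smul, Pi.smul_apply, seq_e, smul_eq_mul, mul_ite, mul_one, mul_zero]
  rw [Finset.sum_ite_eq]

/-- The basis is a monotone Schauder basis. -/
lemma monotone_sum (h : E 𝕜) (N : ℕ) : ‖∑ n ∈ Finset.range N, f n h • (e n : E 𝕜)‖ ≤ ‖h‖ := by
  apply norm_le
  intro A K M hA
  refine le_trans ?_ (V_le h (A ∩ Finset.range N) K (min M N)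
    ((Finset.card_le_card Finset.inter_subset_left).trans hA))
  unfold V
  have hs : ∀ k, seq (∑ n ∈ Finset.range N, f n h • (e n : E 𝕜)) k =
      if k ∈ Finset.range N then seq h k else 0 := by
    intro k; rw [seq_sum]; rfl
  simp only [hs]
  apply le_of_eq
  congr 1
  · congr 1
    rw [← Finset.sum_subset (Finset.inter_subset_left (s₁ := A) (s₂ := Finset.range N))]
    · refine Finset.sum_congr rfl fun n hn => ?_
      rw [if_pos (Finset.mem_inter.1 hn).2]
    · intro n hn hn'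
      rw [if_neg (fun h => hn' (Finset.mem_inter.2 ⟨hn, h⟩)), norm_zero]
  · congr 1
    rw [← Finset.sum_subset (s₁ := Finset.range (min M N) \ (A ∩ Finset.range N))
      (s₂ := Finset.range M \ A)]
    · refine Finset.sum_congr rfl fun n hn => ?_
      rw [Finset.mem_sdiff, Finset.mem_range, lt_min_iff] at hn
      rw [if_pos (Finset.mem_range.2 hn.1.2)]
    · intro n hn
      rw [Finset.mem_sdiff, Finset.mem_range, lt_min_iff, Finset.mem_inter, Finset.mem_range] at hn
      rw [Finset.mem_sdiff, Finset.mem_range]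
      exact ⟨hn.1.1, fun h => hn.2 ⟨h, hn.1.2⟩⟩
    · intro n hn hn'
      rw [Finset.mem_sdiff, Finset.mem_range] at hn
      rw [Finset.mem_sdiff, Finset.mem_range, lt_min_iff, Finset.mem_inter, Finset.mem_range] at hn'
      rw [if_neg, mul_zero]
      rw [Finset.mem_range]
      intro h
      exact hn' ⟨⟨hn.1, h⟩, fun h' => hn.2 h'.1⟩

lemma schauder (h : E 𝕜) :
    Tendsto (fun N => ∑ n ∈ Finset.range N, f n h • (e n : E 𝕜)) atTop (𝓝 h) := by
  rw [Metric.tendsto_atTop]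
  intro δ hδ
  obtain ⟨N, g, h1, h2⟩ := approx h (δ / 4) (by positivity)
  refine ⟨N, fun n hn => ?_⟩
  have hg : ∑ k ∈ Finset.range n, f k g • (e k : E 𝕜) = g := by
    apply seq_inj
    intro k
    rw [seq_sum]
    split_ifs with hk
    · rfl
    · rw [h1 k (by rw [Finset.mem_range] at hk; omega)]
  have hsub : ∑ k ∈ Finset.range n, f k h • (e k : E 𝕜) - h =
      ∑ k ∈ Finset.range n, f k (h - g) • (e k : E 𝕜) - (h - g) := by
    have : ∑ k ∈ Finset.range n, f k (h - g) • (e k : E 𝕜) =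
        ∑ k ∈ Finset.range n, f k h • (e k : E 𝕜) - g := by
      conv_rhs => rw [← hg]
      rw [← Finset.sum_sub_distrib]
      refine Finset.sum_congr rfl fun k _ => ?_
      rw [map_sub, sub_smul]
    rw [this]; abel
  rw [dist_eq_norm, hsub]
  have h3 := monotone_sum (h - g) n
  have h4 := norm_sub_le (∑ k ∈ Finset.range n, f k (h - g) • (e k : E 𝕜)) (h - g)
  linarith

/-- Property (A). -/
lemma propA (x : E 𝕜) (A B : Finset ℕ) (ε η : ℕ → 𝕜) (hx : ∀ n, ‖f n x‖ ≤ 1)
    (hAB : A.card = B.card) (hd : Disjoint A B) (h0 : ∀ n ∈ A ∪ B, f n x = 0)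
    (hε : ∀ n, ‖ε n‖ = 1) (hη : ∀ n, ‖η n‖ = 1) :
    ‖x + ∑ n ∈ A, ε n • (e n : E 𝕜)‖ ≤ ‖x + ∑ n ∈ B, η n • (e n : E 𝕜)‖ := by
  have hput : ∀ (C : Finset ℕ) (c : ℕ → 𝕜), (∀ n ∈ C, f n x = 0) →
      seq (x + ∑ n ∈ C, c n • (e n : E 𝕜)) = put (seq x) C c := by
    intro C c hC
    funext n
    rw [seq_add, Pi.add_apply, seq_sum]
    unfold put
    split_ifs with h
    · have := hC n h
      rw [f_apply] at this
      rw [this, zero_add]
    · rw [add_zero]
  apply norm_le
  intro A1 K M hA1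
  rw [hput A ε (fun n hn => h0 n (Finset.mem_union_left _ hn))]
  obtain ⟨B1, L, h1, h2⟩ := transfer (seq x) hx A B hAB hd h0 ε η hε hη A1 K M hA1
  refine h2.trans ?_
  rw [← hput B η (fun n hn => h0 n (Finset.mem_union_right _ hn))]
  exact V_le _ B1 L M h1

/-! ### The basis is conditional -/

lemma alt (u : ℕ → ℝ) (hu : ∀ n, 0 ≤ u n) (ha : Antitone u) (n : ℕ) :
    0 ≤ ∑ i ∈ Finset.range n, (-1) ^ i * u i ∧ ∑ i ∈ Finset.range n, (-1) ^ i * u i ≤ u 0 := by
  induction n generalizing u with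
  | zero => simp [hu 0]
  | succ n ih =>
    have h1 := ih (fun n => u (n + 1)) (fun n => hu _) (fun a b hab => ha (by omega))
    rw [Finset.sum_range_succ']
    have e1 : ∑ i ∈ Finset.range n, (-1) ^ (i + 1) * u (i + 1) =
        - ∑ i ∈ Finset.range n, (-1) ^ i * u (i + 1) := by
      rw [← Finset.sum_neg_distrib]
      refine Finset.sum_congr rfl fun i _ => ?_
      rw [pow_succ]; ring
    rw [e1, pow_zero, one_mul]
    have h2 : u (0 + 1) ≤ u 0 := ha (by omega)
    constructor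
    · linarith [h1.2]
    · linarith [h1.1]

lemma sum_w (n : ℕ) : ∑ i ∈ Finset.range n, w i ≤ 2 * √(n : ℝ) := by
  induction n with
  | zero => simp
  | succ n ih =>
    rw [Finset.sum_range_succ]
    have h1 : w n ≤ 2 * √((n + 1 : ℕ) : ℝ) - 2 * √(n : ℝ) := by
      unfold w
      push_cast
      have h2 : (0 : ℝ) < √((n : ℝ) + 1) := by positivity
      rw [div_le_iff₀ h2]
      have h3 : √((n : ℝ) + 1) * √((n : ℝ) + 1) = n + 1 := Real.mul_self_sqrt (by positivity)
      have h4 : √(n : ℝ) * √(n : ℝ) = n := Real.mul_self_sqrt (by positivity)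
      nlinarith [sq_nonneg (√((n : ℝ) + 1) - √(n : ℝ))]
    linarith

lemma w_mul_sum (A : Finset ℕ) (K : ℕ) (hA : A.card ≤ K) : w K * ∑ n ∈ A, w n ≤ 3 := by
  have h1 : ∑ n ∈ A, w n ≤ ∑ n ∈ Finset.range K, w n + K * w K := by
    calc ∑ n ∈ A, w n ≤ ∑ n ∈ A, ((if n ∈ Finset.range K then w n else 0) + w K) := by
          gcongr with n _
          split_ifs with h
          · linarith [w_pos K]
          · rw [Finset.mem_range, not_lt] at h
            rw [zero_add]; exact w_anti h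
      _ = ∑ n ∈ A ∩ Finset.range K, w n + A.card * w K := by
          rw [Finset.sum_add_distrib, Finset.sum_ite_mem, Finset.sum_const, nsmul_eq_mul]
      _ ≤ _ := by
          have : (A.card : ℝ) ≤ K := by exact_mod_cast hA
          have := w_pos K
          gcongr
          · exact fun _ _ _ => (w_pos _).le
          · exact Finset.inter_subset_right
  have h2 := sum_w K
  have h3 : w K * (2 * √(K : ℝ) + K * w K) ≤ 3 := by
    have h4 : w K * √(K : ℝ) ≤ 1 := by
      unfold w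
      rw [one_div, inv_mul_le_iff₀ (by positivity), mul_one]
      exact Real.sqrt_le_sqrt (by linarith)
    have h5 : w K * (K * w K) ≤ 1 := by
      have : w K * (K * w K) = K * (w K * w K) := by ring
      rw [this, w_sq, mul_one_div, div_le_one (by positivity)]
      linarith
    nlinarith
  calc w K * ∑ n ∈ A, w n ≤ w K * (2 * √(K : ℝ) + K * w K) := by
        have := w_pos K
        gcongr
        linarith
    _ ≤ 3 := h3

/-- the alternating vector -/
noncomputable def xa (N : ℕ) : E 𝕜 :=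
  ∑ n ∈ Finset.range N, (((-1) ^ n * w n : ℝ) : 𝕜) • (e n : E 𝕜)

lemma norm_xa (N : ℕ) : ‖(xa N : E 𝕜)‖ ≤ 13 := by
  apply norm_le
  intro A K M hA
  unfold V
  have hs : ∀ k, seq (xa N : E 𝕜) k = if k ∈ Finset.range N then (((-1) ^ k * w k : ℝ) : 𝕜) else 0 :=
    fun k => by unfold xa; rw [seq_sum]
  have hn : ∀ k, ‖seq (xa N : E 𝕜) k‖ ≤ w k := by
    intro k
    rw [hs]
    split_ifs
    · rw [RCLike.norm_ofReal, abs_mul, abs_pow, abs_neg, abs_one, one_pow, one_mul,
        abs_of_pos (w_pos k)]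
    · rw [norm_zero]; exact (w_pos k).le
  have h1 : w K * ∑ n ∈ A, ‖seq (xa N : E 𝕜) n‖ ≤ 3 := by
    refine le_trans ?_ (w_mul_sum A K hA)
    have := w_pos K
    gcongr with n _
    exact hn n
  have h2 : ‖∑ n ∈ Finset.range M, ((w (max K n) : ℝ) : 𝕜) * seq (xa N : E 𝕜) n‖ ≤ 1 := by
    have e1 : ∑ n ∈ Finset.range M, ((w (max K n) : ℝ) : 𝕜) * seq (xa N : E 𝕜) n =
        ((∑ n ∈ Finset.range (min M N), (-1) ^ n * (w (max K n) * w n) : ℝ) : 𝕜) := by
      rw [← Finset.sum_subset (s₁ := Finset.range (min M N)) (s₂ := Finset.range M)]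
      · push_cast
        refine Finset.sum_congr rfl fun n hn => ?_
        rw [Finset.mem_range, lt_min_iff] at hn
        rw [hs, if_pos (Finset.mem_range.2 hn.2)]
        push_cast; ring
      · exact Finset.range_subset_range.2 (min_le_left _ _)
      · intro n hn hn'
        rw [Finset.mem_range] at hn
        rw [Finset.mem_range, lt_min_iff] at hn'
        rw [hs, if_neg (by rw [Finset.mem_range]; omega), mul_zero]
    rw [e1, RCLike.norm_ofReal]
    have h3 := alt (fun n => w (max K n) * w n) (fun n => mul_nonneg (w_pos _).le (w_pos _).le)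
      (fun a b hab => mul_le_mul (w_anti (max_le_max le_rfl hab)) (w_anti hab) (w_pos _).le
        (w_pos _).le) (min M N)
    rw [abs_of_nonneg h3.1]
    refine h3.2.trans ?_
    calc w (max K 0) * w 0 ≤ 1 * 1 := mul_le_mul (w_le_one _) (w_le_one _) (w_pos _).le zero_le_one
      _ = 1 := one_mul 1
  have h3 : ‖∑ n ∈ Finset.range M \ A, ((w (max K n) : ℝ) : 𝕜) * seq (xa N : E 𝕜) n‖ ≤ 1 + 3 := by
    have e2 : ∑ n ∈ Finset.range M \ A, ((w (max K n) : ℝ) : 𝕜) * seq (xa N : E 𝕜) n =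
        ∑ n ∈ Finset.range M, ((w (max K n) : ℝ) : 𝕜) * seq (xa N : E 𝕜) n -
        ∑ n ∈ Finset.range M ∩ A, ((w (max K n) : ℝ) : 𝕜) * seq (xa N : E 𝕜) n := by
      rw [eq_sub_iff_add_eq, ← Finset.sdiff_inter_self_left, Finset.sum_sdiff Finset.inter_subset_left]
    rw [e2]
    refine (norm_sub_le _ _).trans (add_le_add h2 ?_)
    refine (norm_sum_le _ _).trans ?_
    refine le_trans ?_ h1
    rw [Finset.mul_sum]
    calc ∑ n ∈ Finset.range M ∩ A, ‖((w (max K n) : ℝ) : 𝕜) * seq (xa N : E 𝕜) n‖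
        ≤ ∑ n ∈ Finset.range M ∩ A, w K * ‖seq (xa N : E 𝕜) n‖ := by
          gcongr with n _
          rw [norm_mul, RCLike.norm_ofReal, abs_of_pos (w_pos _)]
          gcongr
          exact w_anti (le_max_left _ _)
      _ ≤ _ := by
          refine Finset.sum_le_sum_of_subset_of_nonneg Finset.inter_subset_right ?_
          intro _ _ _
          exact mul_nonneg (w_pos K).le (norm_nonneg _)
  nlinarith

/-- the projection of the alternating vector on the even coordinates is large -/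
lemma even_large (N : ℕ) : ∑ j ∈ Finset.range N, 1 / (2 * (j : ℝ) + 1) ≤
    ‖∑ n ∈ (Finset.range (2 * N)).filter Even, f n (xa (2 * N) : E 𝕜) • (e n : E 𝕜)‖ := by
  refine le_trans ?_ (V_le _ ∅ 0 (2 * N) (by simp))
  unfold V
  simp only [Finset.sum_empty, mul_zero, zero_add, Finset.sdiff_empty, Nat.zero_max, seq_sum,
    Finset.mem_filter, Finset.mem_range]
  have e1 : ∑ n ∈ Finset.range (2 * N), ((w n : ℝ) : 𝕜) *
      (if n < 2 * N ∧ Even n then f n (xa (2 * N) : E 𝕜) else 0) =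
      ((∑ n ∈ Finset.range (2 * N), (if Even n then w n * w n else 0) : ℝ) : 𝕜) := by
    push_cast
    refine Finset.sum_congr rfl fun n hn => ?_
    rw [Finset.mem_range] at hn
    by_cases he : Even n
    · rw [if_pos ⟨hn, he⟩, if_pos he, f_apply]
      unfold xa
      rw [seq_sum, if_pos (Finset.mem_range.2 hn), he.neg_one_pow, one_mul]
      push_cast; ring
    · rw [if_neg (fun h => he h.2), if_neg he, mul_zero]; simp
  rw [e1, RCLike.norm_ofReal]
  have h0 : ∀ m : ℕ, ∑ n ∈ Finset.range (2 * m), (if Even n then w n * w n else 0) =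
      ∑ j ∈ Finset.range m, 1 / (2 * (j : ℝ) + 1) := by
    intro m
    induction m with
    | zero => simp
    | succ m ih =>
      rw [show 2 * (m + 1) = 2 * m + 1 + 1 by ring, Finset.sum_range_succ, Finset.sum_range_succ,
        ih, Finset.sum_range_succ, if_pos (even_two_mul m), w_sq, if_neg (by simp)]
      push_cast; ring
  rw [h0]
  exact le_abs_self _

lemma not_uncond : ¬ ∀ x : E 𝕜, HasSum (fun n => f n x • (e n : E 𝕜)) x := by
  intro hun
  -- the projections are uniformly bounded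
  let P : Finset ℕ → (E 𝕜 →L[𝕜] E 𝕜) := fun B => ∑ n ∈ B, (f n).smulRight (e n : E 𝕜)
  have hP : ∀ B x, P B x = ∑ n ∈ B, f n x • (e n : E 𝕜) := by
    intro B x
    simp only [P, sum_apply, ContinuousLinearMap.smulRight_apply]
  have hb : ∀ x, ∃ C, ∀ B, ‖P B x‖ ≤ C := by
    intro x
    have hs := (hun x).summable
    obtain ⟨s, hs'⟩ := (summable_iff_vanishing_norm.1 hs) 1 one_pos
    refine ⟨∑ n ∈ s, ‖f n x • (e n : E 𝕜)‖ + 1, fun B => ?_⟩
    rw [hP, ← Finset.sum_inter_add_sum_sdiff B s]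
    refine (norm_add_le _ _).trans (add_le_add ?_ ?_)
    · refine (norm_sum_le _ _).trans ?_
      exact Finset.sum_le_sum_of_subset_of_nonneg Finset.inter_subset_right
        (fun _ _ _ => norm_nonneg _)
    · exact (hs' _ Finset.sdiff_disjoint).le
  obtain ⟨C, hC⟩ := banach_steinhaus hb
  have h1 : ∀ N : ℕ, ∑ j ∈ Finset.range N, 1 / (2 * (j : ℝ) + 1) ≤ max C 0 * 13 := by
    intro N
    refine (even_large (𝕜 := 𝕜) N).trans ?_
    rw [← hP]
    refine ((P _).le_opNorm _).trans ?_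
    exact mul_le_mul ((hC _).trans (le_max_left _ _)) (norm_xa _) (norm_nonneg _) (le_max_right _ _)
  have h2 : Tendsto (fun N : ℕ => ∑ j ∈ Finset.range N, (1 / ((j : ℝ) + 1))) atTop atTop :=
    Real.tendsto_sum_range_one_div_nat_succ_atTop
  obtain ⟨N, hN⟩ := (h2.eventually_gt_atTop (2 * (max C 0 * 13))).exists
  have h3 : ∑ j ∈ Finset.range N, (1 / ((j : ℝ) + 1)) ≤
      2 * ∑ j ∈ Finset.range N, 1 / (2 * (j : ℝ) + 1) := by
    rw [Finset.mul_sum]
    gcongr with j _
    rw [mul_one_div, div_le_div_iff₀ (by positivity) (by positivity)]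
    linarith
  linarith [h1 N]

end Pool.Agent.W708.PA
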