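import Mathlib

set_option autoImplicit false
open scoped BigOperators
open Filter Topology

namespace Pool.Agent.W708.NU

/-- Index set of the basis: `(k, i, j)`. -/
abbrev I := ℕ × ℕ × ℕ

/-- The averaged difference between the blocks `i` and `i+1` of the group `k`. -/
noncomputable def D (k i : ℕ) (h : I → ℝ) : ℝ :=
  (∑ a ∈ Finset.range (4 ^ i), ∑ b ∈ Finset.range (4 ^ (i + 1)),
    |h (k, i, a) - 2 * h (k, i + 1, b)|) / 4 ^ (i + 1)

/-- Index set of the seminorms. -/
abbrev J := I ⊕ (ℕ × ℕ)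

noncomputable def S (t : J) (h : I → ℝ) : ℝ :=
  match t with
  | .inl x => |h x|
  | .inr p => if p.2 < p.1 then D p.1 p.2 h else 0

lemma D_nonneg (k i : ℕ) (h : I → ℝ) : 0 ≤ D k i h := by
  unfold D; positivity

lemma D_add (k i : ℕ) (h g : I → ℝ) : D k i (h + g) ≤ D k i h + D k i g := by
  unfold D
  rw [← add_div, ← Finset.sum_add_distrib]
  gcongr with a ha
  rw [← Finset.sum_add_distrib]
  gcongr with b hb
  have : (h + g) (k, i, a) - 2 * (h + g) (k, i + 1, b) =
    (h (k, i, a) - 2 * h (k, i + 1, b)) + (g (k, i, a) - 2 * g (k, i + 1, b)) := by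
    simp only [Pi.add_apply]; ring
  rw [this]
  exact abs_add_le _ _

lemma D_smul (k i : ℕ) (c : ℝ) (h : I → ℝ) : D k i (c • h) = |c| * D k i h := by
  unfold D
  rw [← mul_div_assoc, Finset.mul_sum]
  congr 1
  refine Finset.sum_congr rfl fun a _ => ?_
  rw [Finset.mul_sum]
  refine Finset.sum_congr rfl fun b _ => ?_
  rw [← abs_mul]
  congr 1
  simp only [Pi.smul_apply, smul_eq_mul]; ring

lemma S_nonneg (t : J) (h : I → ℝ) : 0 ≤ S t h := by
  rcases t with x | p
  · exact abs_nonneg _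
  · simp only [S]
    split_ifs
    · exact D_nonneg _ _ _
    · exact le_rfl

lemma S_add (t : J) (h g : I → ℝ) : S t (h + g) ≤ S t h + S t g := by
  rcases t with x | p
  · exact abs_add_le _ _
  · simp only [S]
    split_ifs
    · exact D_add _ _ _ _
    · simp

lemma S_smul (t : J) (c : ℝ) (h : I → ℝ) : S t (c • h) = |c| * S t h := by
  rcases t with x | p
  · simp only [S, Pi.smul_apply, smul_eq_mul, abs_mul]
  · simp only [S]
    split_ifs
    · exact D_smul _ _ _ _
    · simp

lemma S_zero (t : J) : S t 0 = 0 := by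
  have := S_smul t 0 0
  simpa using this

/-- The space. -/
def X : Submodule ℝ (I → ℝ) where
  carrier := {h | Tendsto (fun t => S t h) cofinite (𝓝 0)}
  add_mem' := by
    intro h g hh hg
    refine squeeze_zero (fun t => S_nonneg t _) (fun t => S_add t h g) ?_
    simpa using hh.add hg
  zero_mem' := by
    simp only [Set.mem_ofPred_eq, S_zero]
    exact tendsto_const_nhds
  smul_mem' := by
    intro c h hh
    simp only [Set.mem_ofPred_eq, S_smul]
    simpa using hh.const_mul |c|

lemma mem_X {h : I → ℝ} : h ∈ X ↔ Tendsto (fun t => S t h) cofinite (𝓝 0) := Iff.rfl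

/-- The norm. -/
noncomputable def q (h : X) : ℝ := ⨆ t, S t h.1

lemma bdd (h : X) : BddAbove (Set.range fun t => S t h.1) :=
  Tendsto.bddAbove_range_of_cofinite h.2

lemma S_le_q (h : X) (t : J) : S t h.1 ≤ q h := le_ciSup (bdd h) t

lemma q_nonneg (h : X) : 0 ≤ q h := (S_nonneg (.inl (0, 0, 0)) _).trans (S_le_q h _)

lemma q_le {h : X} {r : ℝ} (H : ∀ t, S t h.1 ≤ r) : q h ≤ r := ciSup_le H

lemma abs_le_q (h : X) (x : I) : |h.1 x| ≤ q h := S_le_q h (.inl x)

lemma q_smul (c : ℝ) (h : X) : q (c • h) = ‖c‖ * q h := by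
  unfold q
  rw [Real.norm_eq_abs, Real.mul_iSup_of_nonneg (abs_nonneg c)]
  congr 1
  ext t
  exact S_smul t c h.1

lemma q_add (h g : X) : q (h + g) ≤ q h + q g :=
  q_le fun t => (S_add t h.1 g.1).trans (add_le_add (S_le_q h t) (S_le_q g t))

lemma q_eq_zero {h : X} (hq : q h = 0) : h = 0 := by
  apply Subtype.ext
  funext x
  have := abs_le_q h x
  rw [hq] at this
  simpa using abs_nonpos_iff.1 this

lemma D_tendsto (k i : ℕ) {u : ℕ → I → ℝ} {f : I → ℝ}
    (hu : ∀ x, Tendsto (fun n => u n x) atTop (𝓝 (f x))) :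
    Tendsto (fun n => D k i (u n)) atTop (𝓝 (D k i f)) := by
  unfold D
  refine Tendsto.div_const ?_ _
  refine tendsto_finsetSum _ fun a _ => tendsto_finsetSum _ fun b _ => ?_
  exact ((hu _).sub ((hu _).const_mul 2)).abs

lemma S_tendsto (t : J) {u : ℕ → I → ℝ} {f : I → ℝ}
    (hu : ∀ x, Tendsto (fun n => u n x) atTop (𝓝 (f x))) :
    Tendsto (fun n => S t (u n)) atTop (𝓝 (S t f)) := by
  rcases t with x | p
  · exact (hu x).abs
  · simp only [S]
    split_ifs
    · exact D_tendsto _ _ hu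
    · exact tendsto_const_nhds

lemma complete (u : ℕ → X) (hu : ∀ ε : ℝ, 0 < ε → ∃ N : ℕ, ∀ m ≥ N, ∀ n ≥ N, q (u m - u n) < ε) :
    ∃ f : X, ∀ ε : ℝ, 0 < ε → ∃ N : ℕ, ∀ n ≥ N, q (u n - f) < ε := by
  have hc : ∀ x : I, CauchySeq fun n => (u n).1 x := by
    intro x
    rw [Metric.cauchySeq_iff]
    intro ε hε
    obtain ⟨N, hN⟩ := hu ε hε
    refine ⟨N, fun m hm n hn => ?_⟩
    rw [Real.dist_eq]
    exact (abs_le_q (u m - u n) x).trans_lt (hN m hm n hn)
  choose f hf using fun x => cauchySeq_tendsto_of_complete (hc x)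
  have key : ∀ ε : ℝ, 0 < ε → ∃ N : ℕ, ∀ n ≥ N, ∀ t, S t ((u n).1 - f) ≤ ε := by
    intro ε hε
    obtain ⟨N, hN⟩ := hu ε hε
    refine ⟨N, fun n hn t => ?_⟩
    have h1 : Tendsto (fun m => S t ((u n).1 - (u m).1)) atTop (𝓝 (S t ((u n).1 - f))) := by
      apply S_tendsto
      intro x
      simpa using (hf x).const_sub ((u n).1 x)
    refine le_of_tendsto h1 ?_
    filter_upwards [eventually_ge_atTop N] with m hm
    exact (S_le_q (u n - u m) t).trans (hN n hn m hm).le
  have hfX : f ∈ X := by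
    rw [mem_X, Metric.tendsto_nhds]
    intro ε hε
    obtain ⟨N, hN⟩ := key (ε / 2) (by positivity)
    have h1 := (Metric.tendsto_nhds.1 (mem_X.1 (u N).2)) (ε / 2) (by positivity)
    filter_upwards [h1] with t ht
    rw [Real.dist_eq, sub_zero, abs_of_nonneg (S_nonneg _ _)] at ht ⊢
    have h2 := hN N le_rfl t
    have h3 : S t f ≤ S t ((u N).1 - f) + S t (u N).1 := by
      have h4 : f = (-1 : ℝ) • ((u N).1 - f) + (u N).1 := by
        simp
      calc S t f = S t ((-1 : ℝ) • ((u N).1 - f) + (u N).1) := by rw [← h4]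
        _ ≤ S t ((-1 : ℝ) • ((u N).1 - f)) + S t (u N).1 := S_add _ _ _
        _ = _ := by rw [S_smul]; simp
    linarith
  refine ⟨⟨f, hfX⟩, fun ε hε => ?_⟩
  obtain ⟨N, hN⟩ := key (ε / 2) (by positivity)
  refine ⟨N, fun n hn => ?_⟩
  exact (q_le (h := u n - ⟨f, hfX⟩) (r := ε / 2) (hN n hn)).trans_lt (by linarith)

/-- `D` is bounded by the `ℓ₁` sums over the two blocks. -/
lemma D_le_sums (k i : ℕ) (h : I → ℝ) :
    D k i h ≤ ∑ a ∈ Finset.range (4 ^ i), |h (k, i, a)| +
      (1 / 2) * ∑ b ∈ Finset.range (4 ^ (i + 1)), |h (k, i + 1, b)| := by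
  unfold D
  have h4 : (0 : ℝ) < 4 ^ (i + 1) := by positivity
  rw [div_le_iff₀ h4]
  calc ∑ a ∈ Finset.range (4 ^ i), ∑ b ∈ Finset.range (4 ^ (i + 1)),
        |h (k, i, a) - 2 * h (k, i + 1, b)|
      ≤ ∑ a ∈ Finset.range (4 ^ i), ∑ b ∈ Finset.range (4 ^ (i + 1)),
        (|h (k, i, a)| + 2 * |h (k, i + 1, b)|) := by
        gcongr with a _ b _
        refine (abs_sub _ _).trans ?_
        rw [abs_mul, abs_two]
    _ = _ := by
        simp only [Finset.sum_add_distrib, Finset.sum_const, Finset.card_range, nsmul_eq_mul,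
          ← Finset.mul_sum]
        push_cast
        rw [pow_succ]
        ring

/-- A finitely supported function is in the space. -/
lemma finsupp_mem (h : I → ℝ) (hh : {x | h x ≠ 0}.Finite) : h ∈ X := by
  rw [mem_X]
  apply tendsto_nhds_of_eventually_eq
  have : {t : J | S t h ≠ 0} ⊆ (Sum.inl '' {x | h x ≠ 0}) ∪
      ((fun x : I => (Sum.inr (x.1, x.2.1) : J)) '' {x | h x ≠ 0}) ∪
      ((fun x : I => (Sum.inr (x.1, x.2.1 - 1) : J)) '' {x | h x ≠ 0}) := by
    intro t ht
    rcases t with x | ⟨k, i⟩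
    · left; left
      refine ⟨x, ?_, rfl⟩
      simpa [S] using ht
    · simp only [S, Set.mem_ofPred_eq] at ht
      by_contra hcon
      simp only [Set.mem_union, Set.mem_image, not_or, not_exists, not_and] at hcon
      apply ht
      split_ifs with hlt
      · have h1 : ∀ a, h (k, i, a) = 0 := by
          intro a
          by_contra hne
          exact hcon.1.2 (k, i, a) hne rfl
        have h2 : ∀ a, h (k, i + 1, a) = 0 := by
          intro a
          by_contra hne
          exact hcon.2 (k, i + 1, a) hne rfl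
        unfold D
        simp [h1, h2]
      · rfl
  have hfin : {t : J | S t h ≠ 0}.Finite :=
    (((hh.image _).union (hh.image _)).union (hh.image _)).subset this
  exact hfin

/-- The basis vectors. -/
noncomputable def ee (x : I) : X := ⟨Pi.single x 1, finsupp_mem _ (by
  refine (Set.finite_singleton x).subset ?_
  intro y hy
  by_contra hne
  exact hy (Pi.single_eq_of_ne hne 1))⟩

lemma ee_apply (x y : I) : (ee x).1 y = if y = x then 1 else 0 := by
  simp only [ee, Pi.single_apply]

lemma q_ee (x : I) : q (ee x) ≤ 3 / 2 := by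
  apply q_le
  intro t
  rcases t with y | ⟨k, i⟩
  · simp only [S, ee_apply]
    split_ifs <;> norm_num
  · simp only [S]
    split_ifs with hlt
    · refine (D_le_sums _ _ _).trans ?_
      have key : ∀ (i N : ℕ), ∑ a ∈ Finset.range N, |(ee x).1 (k, i, a)| ≤ 1 := by
        intro i N
        calc ∑ a ∈ Finset.range N, |(ee x).1 (k, i, a)|
            ≤ ∑ a ∈ Finset.range N, (if a = x.2.2 then (1 : ℝ) else 0) := by
              gcongr with a _
              rw [ee_apply]
              split_ifs with h1 h2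
              · simp
              · exact absurd (by rw [← h1]) h2
              · simp
              · simp
          _ ≤ 1 := by
              rw [Finset.sum_ite_eq']
              split_ifs <;> norm_num
      have h1 := key i (4 ^ i)
      have h2 := key (i + 1) (4 ^ (i + 1))
      linarith
    · norm_num

/-- Restriction of a vector of the space to a finite set of coordinates. -/
noncomputable def res (T : Finset I) (h : I → ℝ) : X :=
  ⟨fun x => if x ∈ T then h x else 0, finsupp_mem _ (by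
    refine T.finite_toSet.subset ?_
    intro y hy
    by_contra hne
    exact hy (if_neg hne))⟩

lemma res_apply (T : Finset I) (h : I → ℝ) (x : I) :
    (res T h).1 x = if x ∈ T then h x else 0 := rfl

lemma res_eq_sum (T : Finset I) (h : I → ℝ) : res T h = ∑ x ∈ T, h x • ee x := by
  apply Subtype.ext
  funext y
  rw [res_apply, Submodule.coe_sum, Finset.sum_apply]
  simp only [Submodule.coe_smul, Pi.smul_apply, ee_apply, smul_eq_mul, mul_ite, mul_one, mul_zero]
  rw [Finset.sum_ite_eq]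

/-- Density of the finitely supported vectors. -/
lemma dense (f : X) (ε : ℝ) (hε : 0 < ε) : ∃ T : Finset I, q (f - res T f.1) < ε := by
  have h1 := (Metric.tendsto_nhds.1 (mem_X.1 f.2)) (ε / 2) (by positivity)
  have hfin : {t : J | ¬ dist (S t f.1) 0 < ε / 2}.Finite := h1
  -- a bound for the first coordinates
  obtain ⟨K, hK⟩ : ∃ K : ℕ, ∀ t ∈ {t : J | ¬ dist (S t f.1) 0 < ε / 2},
      (Sum.elim (fun x : I => x.1) (fun p : ℕ × ℕ => p.1) t) < K := by
    obtain ⟨K, hK⟩ := (hfin.image (Sum.elim (fun x : I => x.1) (fun p : ℕ × ℕ => p.1))).bddAbove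
    exact ⟨K + 1, fun t ht => Nat.lt_succ_of_le (hK ⟨t, ht, rfl⟩)⟩
  have hfin1 : {x : I | ¬ dist (S (.inl x) f.1) 0 < ε / 2}.Finite :=
    hfin.preimage (Sum.inl_injective.injOn)
  let T : Finset I := hfin1.toFinset ∪
    ((Finset.range K) ×ˢ ((Finset.range (K + 1)) ×ˢ (Finset.range (4 ^ (K + 1)))))
  refine ⟨T, ?_⟩
  refine (q_le (r := ε / 2) ?_).trans_lt (by linarith)
  intro t
  have hsmall : ∀ t : J, K ≤ (Sum.elim (fun x : I => x.1) (fun p : ℕ × ℕ => p.1) t) →
      S t f.1 ≤ ε / 2 := by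
    intro t ht
    by_contra hcon
    have := hK t (by
      simp only [Set.mem_ofPred_eq, Real.dist_eq, sub_zero, abs_of_nonneg (S_nonneg _ _)]
      intro h; exact hcon h.le)
    omega
  rcases t with x | ⟨k, i⟩
  · simp only [S, Submodule.coe_sub, Pi.sub_apply, res_apply]
    by_cases hx : x ∈ T
    · rw [if_pos hx]; simp; positivity
    · rw [if_neg hx, sub_zero]
      by_contra hcon
      apply hx
      apply Finset.mem_union_left
      simp only [Set.Finite.mem_toFinset, Set.mem_ofPred_eq, S, Real.dist_eq, sub_zero, abs_abs]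
      intro h; exact hcon h.le
  · simp only [S]
    split_ifs with hlt
    · rcases lt_or_ge k K with hk | hk
      · -- everything vanishes
        have h0 : ∀ i' a : ℕ, i' ≤ k → a < 4 ^ i' → (f - res T f.1).1 (k, i', a) = 0 := by
          intro i' a hi' ha
          have : (k, i', a) ∈ T := by
            apply Finset.mem_union_right
            simp only [Finset.mem_product, Finset.mem_range]
            refine ⟨hk, by omega, ha.trans_le ?_⟩
            exact Nat.pow_le_pow_right (by norm_num) (by omega)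
          simp only [Submodule.coe_sub, Pi.sub_apply, res_apply, if_pos this, sub_self]
        have hD : D k i (f - res T f.1).1 = 0 := by
          unfold D
          rw [Finset.sum_eq_zero, zero_div]
          intro a ha
          apply Finset.sum_eq_zero
          intro b hb
          rw [h0 i a (by omega) (Finset.mem_range.1 ha),
            h0 (i + 1) b (by omega) (Finset.mem_range.1 hb)]
          simp
        rw [hD]; positivity
      · have h0 : ∀ i' a : ℕ, (f - res T f.1).1 (k, i', a) = f.1 (k, i', a) := by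
          intro i' a
          have : (k, i', a) ∉ T := by
            intro hmem
            rcases Finset.mem_union.1 hmem with h | h
            · rw [Set.Finite.mem_toFinset] at h
              have := hK (.inl (k, i', a)) h
              simp at this
              omega
            · simp only [Finset.mem_product, Finset.mem_range] at h
              omega
          simp only [Submodule.coe_sub, Pi.sub_apply, res_apply, if_neg this, sub_zero]
        have hD : D k i (f - res T f.1).1 = D k i f.1 := by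
          unfold D
          simp only [h0]
        rw [hD]
        have := hsmall (.inr (k, i)) hk
        simpa only [S, if_pos hlt] using this
    · positivity

/-- Normalised averages between two blocks. -/
noncomputable def W (k j i : ℕ) (h : I → ℝ) : ℝ :=
  (∑ a ∈ Finset.range (4 ^ j), ∑ b ∈ Finset.range (4 ^ i),
    |h (k, j, a) - 2 ^ (i - j) * h (k, i, b)|) / (4 ^ j * 4 ^ i)

lemma W_succ (k j : ℕ) (h : I → ℝ) : W k j (j + 1) h = D k j h / 4 ^ j := by
  unfold W D
  rw [div_div, Nat.add_sub_cancel_left, pow_one, mul_comm]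

lemma W_step (k j i : ℕ) (hji : j + 1 < i) (h : I → ℝ) :
    W k j i h ≤ W k j (j + 1) h + 2 * W k (j + 1) i h := by
  unfold W
  have e1 : i - j = (i - (j + 1)) + 1 := by omega
  have hj : (0 : ℝ) < 4 ^ j := by positivity
  have hj1 : (0 : ℝ) < 4 ^ (j + 1) := by positivity
  have hi : (0 : ℝ) < 4 ^ i := by positivity
  rw [Nat.add_sub_cancel_left, pow_one, e1]
  set m := i - (j + 1) with hm
  -- average over the middle block
  have key : (4 ^ (j + 1) : ℝ) * ∑ a ∈ Finset.range (4 ^ j), ∑ b ∈ Finset.range (4 ^ i),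
        |h (k, j, a) - 2 ^ (m + 1) * h (k, i, b)| ≤
      4 ^ i * (∑ a ∈ Finset.range (4 ^ j), ∑ c ∈ Finset.range (4 ^ (j + 1)),
        |h (k, j, a) - 2 * h (k, j + 1, c)|) +
      4 ^ j * (2 * ∑ c ∈ Finset.range (4 ^ (j + 1)), ∑ b ∈ Finset.range (4 ^ i),
        |h (k, j + 1, c) - 2 ^ m * h (k, i, b)|) := by
    have c1 : (4 ^ (j + 1) : ℝ) * ∑ a ∈ Finset.range (4 ^ j), ∑ b ∈ Finset.range (4 ^ i),
        |h (k, j, a) - 2 ^ (m + 1) * h (k, i, b)| =
        ∑ a ∈ Finset.range (4 ^ j), ∑ c ∈ Finset.range (4 ^ (j + 1)),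
          ∑ b ∈ Finset.range (4 ^ i), |h (k, j, a) - 2 ^ (m + 1) * h (k, i, b)| := by
      simp only [Finset.sum_const, Finset.card_range, nsmul_eq_mul, ← Finset.mul_sum]
      push_cast; ring
    have c2 : 4 ^ i * (∑ a ∈ Finset.range (4 ^ j), ∑ c ∈ Finset.range (4 ^ (j + 1)),
        |h (k, j, a) - 2 * h (k, j + 1, c)|) =
        ∑ a ∈ Finset.range (4 ^ j), ∑ c ∈ Finset.range (4 ^ (j + 1)),
          ∑ b ∈ Finset.range (4 ^ i), |h (k, j, a) - 2 * h (k, j + 1, c)| := by
      simp only [Finset.sum_const, Finset.card_range, nsmul_eq_mul, ← Finset.mul_sum]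
      push_cast; ring
    have c3 : 4 ^ j * (2 * ∑ c ∈ Finset.range (4 ^ (j + 1)), ∑ b ∈ Finset.range (4 ^ i),
        |h (k, j + 1, c) - 2 ^ m * h (k, i, b)|) =
        ∑ a ∈ Finset.range (4 ^ j), ∑ c ∈ Finset.range (4 ^ (j + 1)),
          ∑ b ∈ Finset.range (4 ^ i), 2 * |h (k, j + 1, c) - 2 ^ m * h (k, i, b)| := by
      simp only [Finset.sum_const, Finset.card_range, nsmul_eq_mul, ← Finset.mul_sum]
      push_cast; ring
    rw [c1, c2, c3, ← Finset.sum_add_distrib]
    gcongr with a _
    rw [← Finset.sum_add_distrib]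
    gcongr with c _
    rw [← Finset.sum_add_distrib]
    gcongr with b _
    have e2 : h (k, j, a) - 2 ^ (m + 1) * h (k, i, b) =
        (h (k, j, a) - 2 * h (k, j + 1, c)) + 2 * (h (k, j + 1, c) - 2 ^ m * h (k, i, b)) := by
      ring
    rw [e2]
    refine (abs_add_le _ _).trans ?_
    rw [abs_mul, abs_two]
  set A := ∑ a ∈ Finset.range (4 ^ j), ∑ b ∈ Finset.range (4 ^ i),
        |h (k, j, a) - 2 ^ (m + 1) * h (k, i, b)|
  set B := ∑ a ∈ Finset.range (4 ^ j), ∑ c ∈ Finset.range (4 ^ (j + 1)),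
        |h (k, j, a) - 2 * h (k, j + 1, c)|
  set C := ∑ c ∈ Finset.range (4 ^ (j + 1)), ∑ b ∈ Finset.range (4 ^ i),
        |h (k, j + 1, c) - 2 ^ m * h (k, i, b)|
  have e3 : B / (4 ^ j * 4 ^ (j + 1)) + 2 * (C / (4 ^ (j + 1) * 4 ^ i)) =
      (4 ^ i * B + 4 ^ j * (2 * C)) / (4 ^ j * 4 ^ i * 4 ^ (j + 1)) := by
    field_simp
  rw [e3, div_le_div_iff₀ (by positivity) (by positivity)]
  calc A * (4 ^ j * 4 ^ i * 4 ^ (j + 1)) = (4 ^ (j + 1) * A) * (4 ^ j * 4 ^ i) := by ring
    _ ≤ (4 ^ i * B + 4 ^ j * (2 * C)) * (4 ^ j * 4 ^ i) := by gcongr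

lemma W_le (f : X) (k i : ℕ) (hik : i ≤ k) : ∀ m j : ℕ, i = j + 1 + m →
    W k j i f.1 ≤ 2 * (1 / 4) ^ j * (1 - (1 / 2) ^ (m + 1)) * q f := by
  intro m
  induction m with
  | zero =>
    intro j hj
    subst hj
    rw [add_zero, W_succ, div_eq_mul_inv]
    have h1 : D k j f.1 ≤ q f := by
      have := S_le_q f (.inr (k, j))
      simpa only [S, if_pos (show j < k by omega)] using this
    calc D k j f.1 * (4 ^ j)⁻¹ ≤ q f * (4 ^ j)⁻¹ := by gcongr
      _ = _ := by rw [one_div, inv_pow]; ring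
  | succ m ih =>
    intro j hj
    refine (W_step k j i (by omega) f.1).trans ?_
    have h0 := ih (j + 1) (by omega)
    have h1 : D k j f.1 ≤ q f := by
      have := S_le_q f (.inr (k, j))
      simpa only [S, if_pos (show j < k by omega)] using this
    rw [W_succ]
    calc D k j f.1 / 4 ^ j + 2 * W k (j + 1) i f.1
        ≤ q f / 4 ^ j + 2 * (2 * (1 / 4) ^ (j + 1) * (1 - (1 / 2) ^ (m + 1)) * q f) := by gcongr
      _ = _ := by
        rw [div_eq_mul_inv, ← inv_pow, pow_succ (1 / 4 : ℝ) j, pow_succ (1 / 2 : ℝ) (m + 1)]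
        norm_num
        ring

/-- The number of coordinates in a block which are large is controlled by the norm. -/
lemma count_le (f : X) (hf : ∀ x, |f.1 x| ≤ 1) (a : ℝ) (ha : 0 < a) (ha1 : a ≤ 1) (m : ℕ)
    (hm : 2 ≤ 2 ^ m * a) (A : Finset I) (hA : ∀ x ∈ A, a ≤ |f.1 x|) (k i : ℕ) (hik : i ≤ k) :
    (((Finset.range (4 ^ i)).filter (fun b => (k, i, b) ∈ A)).card : ℝ) ≤
      2 * 4 ^ m / a * q f := by
  set c := ((Finset.range (4 ^ i)).filter (fun b => (k, i, b) ∈ A)) with hc
  have hq := q_nonneg f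
  rcases Nat.eq_zero_or_pos c.card with h0 | hpos
  · rw [h0, Nat.cast_zero]; positivity
  have haq : a ≤ q f := by
    obtain ⟨b, hb⟩ := Finset.card_pos.1 hpos
    exact (hA _ (Finset.mem_filter.1 hb).2).trans (abs_le_q f _)
  have hm0 : m ≠ 0 := by
    rintro rfl
    rw [pow_zero, one_mul] at hm; linarith
  rcases lt_or_ge i m with him | him
  · have h1 : (c.card : ℝ) ≤ 4 ^ m := by
      have : c.card ≤ 4 ^ i := by
        calc c.card ≤ (Finset.range (4 ^ i)).card := Finset.card_filter_le _ _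
          _ = 4 ^ i := Finset.card_range _
      calc (c.card : ℝ) ≤ ((4 ^ i : ℕ) : ℝ) := by exact_mod_cast this
        _ = (4 : ℝ) ^ i := by push_cast; rfl
        _ ≤ 4 ^ m := by gcongr; norm_num
    calc (c.card : ℝ) ≤ 4 ^ m := h1
      _ = 4 ^ m / a * a := by field_simp
      _ ≤ 2 * 4 ^ m / a * q f := by
        have : (4 : ℝ) ^ m / a ≤ 2 * 4 ^ m / a := by gcongr; linarith [pow_pos (show (0:ℝ) < 4 by norm_num) m]
        gcongr
  · obtain ⟨j, rfl⟩ : ∃ j, i = j + m := ⟨i - m, by omega⟩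
    obtain ⟨m', rfl⟩ : ∃ m', m = m' + 1 := ⟨m - 1, by omega⟩
    have h1 := W_le f k (j + (m' + 1)) hik m' j (by omega)
    have h2 : W k j (j + (m' + 1)) f.1 ≤ 2 * (1 / 4) ^ j * q f := by
      refine h1.trans ?_
      have : (1 - (1 / 2 : ℝ) ^ (m' + 1)) ≤ 1 := by
        have : (0 : ℝ) < (1 / 2) ^ (m' + 1) := by positivity
        linarith
      have h3 : 0 ≤ 2 * (1 / 4 : ℝ) ^ j * q f := by positivity
      nlinarith
    have h3 : (c.card : ℝ) / 4 ^ (j + (m' + 1)) ≤ W k j (j + (m' + 1)) f.1 := by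
      unfold W
      rw [le_div_iff₀ (by positivity)]
      have e1 : (c.card : ℝ) / 4 ^ (j + (m' + 1)) * (4 ^ j * 4 ^ (j + (m' + 1))) =
          ∑ a ∈ Finset.range (4 ^ j), (c.card : ℝ) := by
        rw [Finset.sum_const, Finset.card_range, nsmul_eq_mul]
        push_cast
        field_simp
      rw [e1]
      gcongr with a' _
      have e2 : (c.card : ℝ) = ∑ b ∈ c, (1 : ℝ) := by simp
      rw [e2]
      calc ∑ b ∈ c, (1 : ℝ) ≤ ∑ b ∈ c, |f.1 (k, j, a') -
            2 ^ (j + (m' + 1) - j) * f.1 (k, j + (m' + 1), b)| := by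
            gcongr with b hb
            have hb' := hA _ (Finset.mem_filter.1 hb).2
            rw [Nat.add_sub_cancel_left]
            have h5 : |2 ^ (m' + 1) * f.1 (k, j + (m' + 1), b)| ≥ 2 ^ (m' + 1) * a := by
              rw [abs_mul, abs_of_pos (by positivity : (0:ℝ) < 2 ^ (m' + 1))]
              gcongr
            have h6 := hf (k, j, a')
            have h7 := abs_sub_abs_le_abs_sub (2 ^ (m' + 1) * f.1 (k, j + (m' + 1), b))
              (f.1 (k, j, a'))
            rw [abs_sub_comm] at h7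
            linarith
        _ ≤ _ := by
            refine Finset.sum_le_sum_of_subset_of_nonneg (Finset.filter_subset _ _) ?_
            intro _ _ _; exact abs_nonneg _
    have h4 := h3.trans h2
    rw [div_le_iff₀ (by positivity)] at h4
    calc (c.card : ℝ) ≤ 2 * (1 / 4) ^ j * q f * 4 ^ (j + (m' + 1)) := h4
      _ = 2 * 4 ^ (m' + 1) * q f := by
        rw [pow_add, one_div, inv_pow]; field_simp
      _ ≤ 2 * 4 ^ (m' + 1) / a * q f := by
        gcongr
        rw [le_div_iff₀ ha]
        nlinarith [pow_pos (show (0:ℝ) < 4 by norm_num) (m' + 1)]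

/-- The basis is nearly unconditional. -/
lemma nearly (a : ℝ) (ha : 0 < a) (ha1 : a ≤ 1) : ∃ C : ℝ, ∀ f : X, (∀ x, |f.1 x| ≤ 1) →
    ∀ A : Finset I, (∀ x ∈ A, a ≤ |f.1 x|) → q (res A f.1) ≤ C * q f := by
  obtain ⟨m, hm⟩ : ∃ m : ℕ, 2 ≤ 2 ^ m * a := by
    obtain ⟨m, hm⟩ := pow_unbounded_of_one_lt (2 / a) (show (1 : ℝ) < 2 by norm_num)
    exact ⟨m, by rw [div_lt_iff₀ ha] at hm; exact hm.le⟩
  refine ⟨2 * (2 * 4 ^ m / a) + 1, fun f hf A hA => ?_⟩
  have hq := q_nonneg f
  have hC : 0 ≤ 2 * 4 ^ m / a * q f := by positivity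
  apply q_le
  intro t
  rcases t with x | ⟨k, i⟩
  · simp only [S, res_apply]
    split_ifs
    · have := abs_le_q f x
      nlinarith
    · simp only [abs_zero]; nlinarith
  · simp only [S]
    split_ifs with hlt
    · refine (D_le_sums _ _ _).trans ?_
      have key : ∀ i' ≤ k, ∑ b ∈ Finset.range (4 ^ i'), |(res A f.1).1 (k, i', b)| ≤
          2 * 4 ^ m / a * q f := by
        intro i' hi'
        refine le_trans ?_ (count_le f hf a ha ha1 m hm A hA k i' hi')
        rw [Finset.card_filter]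
        push_cast
        gcongr with b _
        rw [res_apply]
        split_ifs
        · exact hf _
        · simp
      have h1 := key i (by omega)
      have h2 := key (i + 1) (by omega)
      nlinarith
    · nlinarith

/-- The vector with coefficients `2^(-i)` on the block `i` of the group `k`. -/
noncomputable def ff (k : ℕ) : I → ℝ :=
  fun x => if x.1 = k ∧ x.2.1 ≤ k ∧ x.2.2 < 4 ^ x.2.1 then (1 / 2) ^ x.2.1 else 0

/-- its support -/
def supp (k : ℕ) : Finset I :=
  (({k} : Finset ℕ) ×ˢ ((Finset.range (k + 1)) ×ˢ (Finset.range (4 ^ k)))).filter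
    (fun x => x.2.2 < 4 ^ x.2.1)

lemma mem_supp (k : ℕ) (x : I) : x ∈ supp k ↔ x.1 = k ∧ x.2.1 ≤ k ∧ x.2.2 < 4 ^ x.2.1 := by
  simp only [supp, Finset.mem_filter, Finset.mem_product, Finset.mem_singleton, Finset.mem_range]
  constructor
  · rintro ⟨⟨h1, h2, h3⟩, h4⟩
    exact ⟨h1, by omega, h4⟩
  · rintro ⟨h1, h2, h3⟩
    exact ⟨⟨h1, by omega, h3.trans_le (Nat.pow_le_pow_right (by norm_num) h2)⟩, h3⟩

lemma ff_eq (k : ℕ) (x : I) : ff k x = if x ∈ supp k then (1 / 2) ^ x.2.1 else 0 := by
  simp only [ff, mem_supp]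

/-- the test vector -/
noncomputable def F (k : ℕ) : X := res (supp k) (ff k)

lemma F_apply (k : ℕ) (x : I) : (F k).1 x = if x ∈ supp k then (1 / 2) ^ x.2.1 else 0 := by
  unfold F
  rw [res_apply, ff_eq]
  split_ifs <;> rfl

lemma q_F (k : ℕ) : q (F k) ≤ 1 := by
  apply q_le
  intro t
  rcases t with x | ⟨l, i⟩
  · simp only [S, F_apply]
    split_ifs
    · rw [abs_of_pos (by positivity)]
      exact pow_le_one₀ (by norm_num) (by norm_num)
    · simp
  · simp only [S]
    split_ifs with hlt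
    · have : D l i (F k).1 = 0 := by
        unfold D
        rw [Finset.sum_eq_zero, zero_div]
        intro a ha
        apply Finset.sum_eq_zero
        intro b hb
        rw [Finset.mem_range] at ha hb
        rw [F_apply, F_apply]
        by_cases hl : l = k
        · subst hl
          have m1 : ((l, i, a) : I) ∈ supp l := (mem_supp _ _).2 ⟨rfl, hlt.le, ha⟩
          have m2 : ((l, i + 1, b) : I) ∈ supp l := (mem_supp _ _).2 ⟨rfl, hlt, hb⟩
          rw [if_pos m1, if_pos m2]
          rw [abs_eq_zero, pow_succ]; ring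
        · rw [if_neg (fun h => hl ((mem_supp _ _).1 h).1), if_neg (fun h => hl ((mem_supp _ _).1 h).1)]
          simp
      rw [this]; norm_num
    · norm_num

lemma q_ones (k : ℕ) : 4 ^ k ≤ q (res (supp (k + 1)) (fun _ => 1)) := by
  refine le_trans (le_of_eq ?_) (S_le_q _ (.inr (k + 1, k)))
  simp only [S, if_pos (Nat.lt_succ_self k)]
  unfold D
  have : ∀ a ∈ Finset.range (4 ^ k), ∑ b ∈ Finset.range (4 ^ (k + 1)),
      |(res (supp (k + 1)) (fun _ => 1)).1 (k + 1, k, a) -
        2 * (res (supp (k + 1)) (fun _ => 1)).1 (k + 1, k + 1, b)| = 4 ^ (k + 1) := by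
    intro a ha
    rw [Finset.mem_range] at ha
    have : ∀ b ∈ Finset.range (4 ^ (k + 1)),
      |(res (supp (k + 1)) (fun _ => 1)).1 (k + 1, k, a) -
        2 * (res (supp (k + 1)) (fun _ => 1)).1 (k + 1, k + 1, b)| = 1 := by
      intro b hb
      rw [Finset.mem_range] at hb
      have m1 : ((k + 1, k, a) : I) ∈ supp (k + 1) := (mem_supp _ _).2 ⟨rfl, Nat.le_succ k, ha⟩
      have m2 : ((k + 1, k + 1, b) : I) ∈ supp (k + 1) := (mem_supp _ _).2 ⟨rfl, le_rfl, hb⟩
      rw [res_apply, res_apply, if_pos m1, if_pos m2]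
      norm_num
    rw [Finset.sum_congr rfl this]
    simp
  rw [Finset.sum_congr rfl this]
  simp

end Pool.Agent.W708.NU
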